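import Pool.Agent.helper12.OB.SpecA

set_option autoImplicit false

namespace Pool.Agent.OB

open Pool.Agent.helper58.DC Pool.Agent.DI Pool.Agent.GR

/-- the chains normalised by `H` -/
private abbrev FRW_Ch (p : ℕ) {G : Type} [Group G] (H : Subgroup G) : Type :=
  {C : Finset (Subgroup G) // PCh p ⊤ ⊥ C ∧ H ≤ nrm C}

private theorem FRW_conj {G : Type} [Group G] (n m : G) : MulAut.conj (n * m) = MulAut.conj n * MulAut.conj m :=
  map_mul _ _ _

private theorem FRW_mapH {G : Type} [Group G] (H : Subgroup G) (n : G) (hn : n ∈ nz H) :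
    H.map (MulAut.conj n).toMonoidHom = H := by
  ext x
  constructor
  · rintro ⟨h, hh, rfl⟩
    exact (Subgroup.mem_normalizer_iff.mp hn h).mp hh
  · intro hx
    refine ⟨n⁻¹ * x * n, ?_, ?_⟩
    · have := (Subgroup.mem_normalizer_iff.mp hn (n⁻¹ * x * n)).mpr (by
        have e : n * (n⁻¹ * x * n) * n⁻¹ = x := by group
        rw [e]; exact hx)
      exact this
    · change n * (n⁻¹ * x * n) * n⁻¹ = x
      group

private theorem FRW_pch (p : ℕ) {G : Type} [Group G] (α : MulAut G) (C : Finset (Subgroup G))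
    (h : PCh p ⊤ ⊥ C) : PCh p ⊤ ⊥ (chainMap α C) := by
  classical
  refine ⟨?_, ?_, fun Q _ => bot_le, fun Q _ => le_top, ?_⟩
  · intro P hP Q hQ hne
    simp only [chainMap, Finset.coe_image, Set.mem_image, Finset.mem_coe] at hP hQ
    obtain ⟨P', hP', rfl⟩ := hP
    obtain ⟨Q', hQ', rfl⟩ := hQ
    rcases h.chain.total hP' hQ' with h1 | h1
    · exact Or.inl (Subgroup.map_mono h1)
    · exact Or.inr (Subgroup.map_mono h1)
  · simp only [chainMap, Finset.mem_image]
    exact ⟨⊥, h.mem, Subgroup.map_bot _⟩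
  · intro Q hQ
    simp only [chainMap, Finset.mem_image] at hQ
    obtain ⟨P, hP, rfl⟩ := hQ
    exact (h.pg P hP).map _

private noncomputable def FRW_act (hNM : NM_stmt) (p : ℕ) {G : Type} [Group G] [Finite G]
    (H N : Subgroup G) (hN : N ≤ nz H) : N →* Equiv.Perm (FRW_Ch p H) := by
  have key : ∀ (n : N) (C : Finset (Subgroup G)), (PCh p ⊤ ⊥ C ∧ H ≤ nrm C) →
      (PCh p ⊤ ⊥ (chainMap (MulAut.conj (n : G)) C) ∧ H ≤ nrm (chainMap (MulAut.conj (n : G)) C)) := by
    intro n C hC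
    refine ⟨FRW_pch p _ C hC.1, ?_⟩
    rw [(hNM G (MulAut.conj (n : G)) C).2.2.2.1]
    have e := FRW_mapH H (n : G) (hN n.2)
    calc H = H.map (MulAut.conj (n : G)).toMonoidHom := e.symm
      _ ≤ _ := Subgroup.map_mono hC.2
  refine MonoidHom.toHomPerm
    { toFun := fun n C => ⟨chainMap (MulAut.conj (n : G)) C.1, key n C.1 C.2⟩
      map_one' := ?_
      map_mul' := ?_ }
  · funext C
    apply Subtype.ext
    change chainMap (MulAut.conj ((1 : N) : G)) C.1 = C.1
    rw [Subgroup.coe_one, map_one]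
    exact (hNM G 1 C.1).2.2.2.2.2.1
  · intro n m
    funext C
    apply Subtype.ext
    change chainMap (MulAut.conj ((n * m : N) : G)) C.1 =
      chainMap (MulAut.conj (n : G)) (chainMap (MulAut.conj (m : G)) C.1)
    rw [Subgroup.coe_mul, map_mul]
    exact (hNM G (MulAut.conj (n : G)) C.1).2.2.2.2.1 _

private theorem FRW_act_apply (hNM : NM_stmt) (p : ℕ) {G : Type} [Group G] [Finite G]
    (H N : Subgroup G) (hN : N ≤ nz H) (n : N) (C : FRW_Ch p H) :
    (FRW_act hNM p H N hN n C).1 = chainMap (MulAut.conj (n : G)) C.1 := rfl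

/-- number of `p`-elements of `N` in the normaliser of the chain -/
private noncomputable def FRW_cnt (p : ℕ) {G : Type} [Group G] (N : Subgroup G)
    (C : Finset (Subgroup G)) : ℕ := Nat.card {n : G // n ∈ N ∧ PEl p n ∧ n ∈ nrm C}

private theorem FRW_cnt_inv (hNM : NM_stmt) (p : ℕ) {G : Type} [Group G] [Finite G]
    (N : Subgroup G) (n : G) (hn : n ∈ N) (C : Finset (Subgroup G)) :
    FRW_cnt p N (chainMap (MulAut.conj n) C) = FRW_cnt p N C := by
  symm
  unfold FRW_cnt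
  refine Nat.card_congr ?_
  refine Equiv.subtypeEquiv (MulAut.conj n).toEquiv ?_
  intro m
  rw [(hNM G (MulAut.conj n) C).2.2.2.1]
  have h1 : m ∈ N ↔ (MulAut.conj n) m ∈ N := by
    rw [MulAut.conj_apply]
    constructor
    · intro h; exact N.mul_mem (N.mul_mem hn h) (N.inv_mem hn)
    · intro h
      have := N.mul_mem (N.mul_mem (N.inv_mem hn) h) hn
      have e : n⁻¹ * (n * m * n⁻¹) * n = m := by group
      rwa [e] at this
  have h2 : PEl p m ↔ PEl p ((MulAut.conj n) m) := by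
    unfold PEl
    constructor
    · rintro ⟨k, hk⟩
      exact ⟨k, by rw [← map_pow, hk, map_one]⟩
    · rintro ⟨k, hk⟩
      refine ⟨k, ?_⟩
      rw [← map_pow] at hk
      exact (MulAut.conj n).injective (by rw [hk, map_one])
  have h3 : m ∈ nrm C ↔ (MulAut.conj n) m ∈ (nrm C).map (MulAut.conj n).toMonoidHom := by
    constructor
    · intro h; exact ⟨m, h, rfl⟩
    · rintro ⟨m', hm', e⟩
      have : m' = m := (MulAut.conj n).injective e
      exact this ▸ hm'
  exact and_congr h1 (and_congr h2 h3)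

private theorem FRW_cnt_dvd (hFRB : FRB_stmt) (hSN : SN_stmt) (hNM : NM_stmt) (p : ℕ)
    [hp : Fact p.Prime] {G : Type} [Group G] [Finite G] (H N : Subgroup G) (hN : N ≤ nz H)
    (C : FRW_Ch p H) :
    pp p {n : N // FRW_act hNM p H N hN n C = C} ∣ FRW_cnt p N C.1 := by
  have h1 := hFRB p hp.out (N ⊓ nrm C.1 : Subgroup G)
  have e1 : pp p (N ⊓ nrm C.1 : Subgroup G) = pp p {n : N // FRW_act hNM p H N hN n C = C} := by
    unfold pp
    congr 2
    refine Nat.card_congr ?_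
    have hiff : ∀ n : N, FRW_act hNM p H N hN n C = C ↔ (n : G) ∈ nrm C.1 := by
      intro n
      rw [← hSN G C.1 C.2.1.chain (n : G)]
      constructor
      · intro h
        exact congrArg Subtype.val h
      · intro h
        exact Subtype.ext h
    refine
      { toFun := fun x => ⟨⟨x.1, x.2.1⟩, (hiff _).mpr x.2.2⟩
        invFun := fun y => ⟨y.1.1, ⟨y.1.2, (hiff _).mp y.2⟩⟩
        left_inv := fun x => rfl
        right_inv := fun y => rfl }
  have e2 : Nat.card {x : (N ⊓ nrm C.1 : Subgroup G) // PEl p x} = FRW_cnt p N C.1 := by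
    unfold FRW_cnt
    refine Nat.card_congr ?_
    have hP : ∀ x : (N ⊓ nrm C.1 : Subgroup G), PEl p x ↔ PEl p (x : G) := by
      intro x
      unfold PEl
      refine exists_congr fun k => ?_
      rw [← Subgroup.coe_pow, OneMemClass.coe_eq_one]
    refine
      { toFun := fun x => ⟨x.1.1, x.1.2.1, (hP _).mp x.2, x.1.2.2⟩
        invFun := fun y => ⟨⟨y.1, ⟨y.2.1, y.2.2.2⟩⟩, (hP _).mpr y.2.2.1⟩
        left_inv := fun x => rfl
        right_inv := fun y => rfl }
  rw [e1, e2] at h1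
  exact h1

private theorem FRW_exch (p : ℕ) {G : Type} [Group G] [Finite G] (H N : Subgroup G) :
    ∑ᶠ n ∈ {n : G | n ∈ N ∧ PEl p n}, W p (H ⊔ Subgroup.zpowers n) =
      ∑ᶠ C : FRW_Ch p H, (-1) ^ (C.1.card + 1) * (FRW_cnt p N C.1 : ℤ) := by
  classical
  have : Fintype G := Fintype.ofFinite G
  have : Fintype (Subgroup G) := Fintype.ofFinite _
  have : Fintype (Finset (Subgroup G)) := Fintype.ofFinite _
  have : Fintype (FRW_Ch p H) := Fintype.ofFinite _
  rw [finsum_mem_def, finsum_eq_sum_of_fintype, finsum_eq_sum_of_fintype]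
  have e1 : ∀ n : G, Set.indicator {n : G | n ∈ N ∧ PEl p n} (fun n => W p (H ⊔ Subgroup.zpowers n)) n =
      ∑ C : Finset (Subgroup G), if (PCh p ⊤ ⊥ C ∧ H ≤ nrm C) then
        (if n ∈ N ∧ PEl p n ∧ n ∈ nrm C then (-1 : ℤ) ^ (C.card + 1) else 0) else 0 := by
    intro n
    rw [Set.indicator_apply]
    unfold W
    rw [finsum_mem_def, finsum_eq_sum_of_fintype]
    by_cases hn : n ∈ N ∧ PEl p n
    · rw [if_pos (show n ∈ {n : G | n ∈ N ∧ PEl p n} from hn)]
      refine Finset.sum_congr rfl fun C _ => ?_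
      rw [Set.indicator_apply]
      have hle : (H ⊔ Subgroup.zpowers n ≤ nrm C) ↔ (H ≤ nrm C ∧ n ∈ nrm C) := by
        rw [sup_le_iff, Subgroup.zpowers_le]
      by_cases hC : PCh p ⊤ ⊥ C ∧ H ≤ nrm C
      · rw [if_pos hC]
        by_cases hm : n ∈ nrm C
        · have hmem : C ∈ {C : Finset (Subgroup G) | PCh p ⊤ ⊥ C ∧ H ⊔ Subgroup.zpowers n ≤ nrm C} :=
            ⟨hC.1, hle.mpr ⟨hC.2, hm⟩⟩
          simp only [if_pos hmem, if_pos (show n ∈ N ∧ PEl p n ∧ n ∈ nrm C from ⟨hn.1, hn.2, hm⟩)]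
        · rw [if_neg, if_neg]
          · rintro ⟨-, -, h⟩; exact hm h
          · rintro ⟨-, h⟩; exact hm (hle.mp h).2
      · rw [if_neg hC, if_neg]
        rintro ⟨h1, h2⟩
        exact hC ⟨h1, (hle.mp h2).1⟩
    · rw [if_neg (show ¬ (n ∈ {n : G | n ∈ N ∧ PEl p n}) from hn)]
      symm
      refine Finset.sum_eq_zero fun C _ => ?_
      split_ifs with h1 h2
      · exact absurd ⟨h2.1, h2.2.1⟩ hn
      · rfl
      · rfl
  simp only [e1]
  rw [Finset.sum_comm]
  have e2 : ∀ C : Finset (Subgroup G), (∑ n : G, if (PCh p ⊤ ⊥ C ∧ H ≤ nrm C) then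
        (if n ∈ N ∧ PEl p n ∧ n ∈ nrm C then (-1 : ℤ) ^ (C.card + 1) else 0) else 0) =
      if (PCh p ⊤ ⊥ C ∧ H ≤ nrm C) then (-1) ^ (C.card + 1) * (FRW_cnt p N C : ℤ) else 0 := by
    intro C
    split_ifs with h
    · rw [← Finset.sum_filter, Finset.sum_const, nsmul_eq_mul, mul_comm]
      congr 2
      unfold FRW_cnt
      rw [Nat.card_eq_fintype_card, Fintype.card_subtype]
    · exact Finset.sum_const_zero
  simp only [e2]
  rw [← Finset.sum_filter]
  exact Finset.sum_subtype _ (fun C => by rw [Finset.mem_filter]; exact ⟨fun h => h.2, fun h => ⟨Finset.mem_univ _, h⟩⟩)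
    (fun C => (-1) ^ (C.card + 1) * (FRW_cnt p N C : ℤ))

theorem FRW (hFRB : FRB_stmt) (hODV : ODV_stmt) (hNM : NM_stmt) (hSN : SN_stmt) : FRW_stmt := by
  classical
  intro G _ _ p hp H N hN
  rw [FRW_exch p H N]
  obtain ⟨w, hw, e⟩ := hODV p hp.out N (FRW_Ch p H) (FRW_act hNM p H N hN)
    (AddMonoidHom.range (Int.castAddHom ℂ))
    (fun C => (((-1) ^ (C.1.card + 1) * (FRW_cnt p N C.1 : ℤ) : ℤ) : ℂ))
    (by
      intro n C
      change (((-1) ^ ((chainMap (MulAut.conj (n : G)) C.1).card + 1) *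
        (FRW_cnt p N (chainMap (MulAut.conj (n : G)) C.1) : ℤ) : ℤ) : ℂ) = _
      rw [FRW_cnt_inv hNM p N (n : G) n.2 C.1, (hNM G (MulAut.conj (n : G)) C.1).2.2.1])
    (by
      intro C
      obtain ⟨c, hc⟩ := FRW_cnt_dvd hFRB hSN hNM p H N hN C
      refine ⟨(((-1) ^ (C.1.card + 1) * (c : ℤ) : ℤ) : ℂ), ⟨(-1) ^ (C.1.card + 1) * (c : ℤ), rfl⟩, ?_⟩
      rw [hc]
      push_cast
      ring)
  obtain ⟨z, rfl⟩ := hw
  refine ⟨z, ?_⟩
  have : Fintype (FRW_Ch p H) := Fintype.ofFinite _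
  rw [finsum_eq_sum_of_fintype] at e ⊢
  rw [← Int.cast_sum] at e
  have e' : ((∑ C : FRW_Ch p H, (-1) ^ (C.1.card + 1) * (FRW_cnt p N C.1 : ℤ) : ℤ) : ℂ) =
      (((pp p N : ℤ) * z : ℤ) : ℂ) := by
    rw [e]
    push_cast
    rfl
  exact Int.cast_injective e'

end Pool.Agent.OB
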