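import Pool.Agent.helper22.OB.SpecG

/-! # Row ob:DG5 (MP_baa4d7_al) -/

set_option autoImplicit false

namespace Pool.Agent.OB

open scoped Pointwise

/-- Sylow: a `p`-subgroup can be conjugated into a maximal one -/
private lemma DG5_conj {G : Type} [Group G] [Finite G] (p : ℕ) [Fact p.Prime] (C D Q : Subgroup G)
    (hDC : D ≤ C) (hD : IsPGroup p D)
    (hmax : ∀ R : Subgroup G, IsPGroup p R → R ≤ C → D ≤ R → R = D)
    (hQC : Q ≤ C) (hQ : IsPGroup p Q) : ∃ c ∈ C, ∀ q ∈ Q, c * q * c⁻¹ ∈ D := by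
  let P : Sylow p C :=
    { toSubgroup := D.subgroupOf C
      isPGroup' := hD.comap_subtype
      is_maximal' := by
        intro R hR hle
        have h1 : R.map C.subtype = D := by
          refine hmax _ (hR.map _) (Subgroup.map_subtype_le R) ?_
          have h2 := Subgroup.map_mono (f := C.subtype) hle
          rw [Subgroup.map_subgroupOf_eq_of_le hDC] at h2
          exact h2
        rw [← h1]
        exact (Subgroup.comap_map_eq_self_of_injective C.subtype_injective R).symm }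
  have hQ1 : IsPGroup p (Q.subgroupOf C) := hQ.comap_subtype
  obtain ⟨P', hP'⟩ := hQ1.exists_le_sylow
  obtain ⟨c, hc⟩ := MulAction.exists_smul_eq C P' P
  refine ⟨c, c.2, fun q hq => ?_⟩
  have h1 : (⟨q, hQC hq⟩ : C) ∈ P' := hP' (by rw [Subgroup.mem_subgroupOf]; exact hq)
  have h2 : MulAut.conj c • (⟨q, hQC hq⟩ : C) ∈ MulAut.conj c • (P' : Subgroup C) :=
    Subgroup.smul_mem_pointwise_smul _ _ _ h1
  have h3 : MulAut.conj c • (P' : Subgroup C) = D.subgroupOf C := by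
    rw [← Sylow.coe_subgroup_smul, hc]
  rw [h3, MulAut.smul_def, MulAut.conj_apply, Subgroup.mem_subgroupOf] at h2
  exact h2

private lemma DG5_max {G : Type} [Group G] [Finite G] (p : ℕ) [Fact p.Prime] (N : Subgroup G) :
    ∃ Q : Subgroup G, Q ≤ N ∧ IsPGroup p Q ∧
      ∀ R : Subgroup G, IsPGroup p R → R ≤ N → Q ≤ R → R = Q := by
  obtain ⟨P⟩ : Nonempty (Sylow p N) := inferInstance
  refine ⟨(P : Subgroup N).map N.subtype, Subgroup.map_subtype_le _, P.2.map _, ?_⟩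
  intro R hR hRN hle
  have h1 : (P : Subgroup N) ≤ R.subgroupOf N := by
    intro w hw
    rw [Subgroup.mem_subgroupOf]
    exact hle (Subgroup.mem_map_of_mem _ hw)
  have h2 : R.subgroupOf N = (P : Subgroup N) := P.is_maximal' hR.comap_subtype h1
  rw [← h2, Subgroup.map_subgroupOf_eq_of_le hRN]

private lemma DG5_pow {G : Type} [Group G] (t y : G) (m : ℕ) (h : t * y * t⁻¹ = y ^ m) (j : ℕ) :
    t ^ j * y * (t ^ j)⁻¹ = y ^ (m ^ j) := by
  induction j with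
  | zero => simp
  | succ j ih =>
    have h1 : t ^ (j + 1) * y * (t ^ (j + 1))⁻¹ = t ^ j * (t * y * t⁻¹) * (t ^ j)⁻¹ := by
      rw [pow_succ]
      group
    rw [h1, h, ← conj_pow, ih, ← pow_mul, pow_succ]

/-- the elements which act on `zpowers y`, inside `C` -/
private def DG5_N {G : Type} [Group G] (C : Subgroup G) (y : G) : Subgroup G where
  carrier := {t | t ∈ C ∧ (∃ m : ℕ, t * y * t⁻¹ = y ^ m) ∧ ∃ m : ℕ, t⁻¹ * y * t = y ^ m}
  mul_mem' := by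
    rintro t u ⟨ht, ⟨m, hm⟩, ⟨m', hm'⟩⟩ ⟨hu, ⟨n, hn⟩, ⟨n', hn'⟩⟩
    refine ⟨C.mul_mem ht hu, ⟨m * n, ?_⟩, ⟨n' * m', ?_⟩⟩
    · have : t * u * y * (t * u)⁻¹ = t * (u * y * u⁻¹) * t⁻¹ := by group
      rw [this, hn, ← conj_pow, hm, ← pow_mul]
    · have : (t * u)⁻¹ * y * (t * u) = u⁻¹ * (t⁻¹ * y * t) * u := by group
      have h2 : ∀ j : ℕ, u⁻¹ * y ^ j * u = (u⁻¹ * y * u) ^ j := by
        intro j
        have := conj_pow (i := j) (a := u⁻¹) (b := y)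
        rw [inv_inv] at this
        exact this.symm
      rw [this, hm', h2, hn', ← pow_mul]
  one_mem' := ⟨C.one_mem, ⟨1, by simp⟩, ⟨1, by simp⟩⟩
  inv_mem' := by
    rintro t ⟨ht, ⟨m, hm⟩, ⟨m', hm'⟩⟩
    refine ⟨C.inv_mem ht, ⟨m', ?_⟩, ⟨m, ?_⟩⟩
    · rw [inv_inv]; exact hm'
    · rw [inv_inv]; exact hm

private lemma DG5_mem {G : Type} [Group G] [Finite G] (C : Subgroup G) (y t : G) (ht : t ∈ C) (m : ℕ)
    (h : t * y * t⁻¹ = y ^ m) : t ∈ DG5_N C y := by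
  refine ⟨ht, ⟨m, h⟩, ⟨m ^ (orderOf t - 1), ?_⟩⟩
  have h1 := DG5_pow t y m h (orderOf t - 1)
  have h2 : t ^ (orderOf t - 1) = t⁻¹ := by
    have h3 : t ^ (orderOf t - 1) * t = 1 := by
      rw [← pow_succ, Nat.sub_add_cancel (orderOf_pos t), pow_orderOf_eq_one]
    exact eq_inv_of_mul_eq_one_left h3
  rw [h2, inv_inv] at h1
  exact h1

private lemma DG5_zp {G : Type} [Group G] (p k : ℕ) (y : G) (h : y ^ p ^ k = 1) :
    IsPGroup p (Subgroup.zpowers y) := by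
  intro w
  refine ⟨k, ?_⟩
  obtain ⟨w, hw⟩ := w
  obtain ⟨i, hi⟩ := Subgroup.mem_zpowers_iff.1 hw
  apply Subtype.ext
  show w ^ p ^ k = 1
  rw [← hi, ← zpow_natCast, ← zpow_mul, mul_comm, zpow_mul, zpow_natCast, h, one_zpow]

theorem DG5 : DG5_stmt := by
  intro p a hp G _ _ D x z hx hDx hDp hDc hz hzc hyp b hb
  by_contra hcon
  push Not at hcon
  have hpr : p.Prime := hp.out
  have hz1 : z ≠ 1 := by
    intro h1
    obtain ⟨m, -, h⟩ := hyp 1 D.one_mem (by rw [one_pow, h1])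
    exact h 1 D.one_mem (by simp)
  have hcom : Commute z x := by
    have := hDx hz
    rw [Subgroup.mem_centralizer_singleton_iff] at this
    exact this
  -- numbers
  obtain ⟨k, s, hs, hN⟩ := Nat.exists_eq_pow_mul_and_not_dvd (Nat.card_pos (α := G)).ne' p hpr.ne_one
  have hcop : Nat.Coprime (p ^ k) s := Nat.Coprime.pow_left _ ((Nat.Prime.coprime_iff_not_dvd hpr).2 hs)
  obtain ⟨r₁, hr1, hr1'⟩ := Nat.chineseRemainder hcop 1 0
  obtain ⟨r₂, hr2', hr2⟩ := Nat.chineseRemainder hcop 0 1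
  have hsr1 : s ∣ r₁ := (Nat.modEq_zero_iff_dvd).1 hr1'
  have hpr2 : p ^ k ∣ r₂ := (Nat.modEq_zero_iff_dvd).1 hr2'
  -- orders
  obtain ⟨j, hj⟩ := (IsPGroup.iff_orderOf.1 hDp) ⟨z, hz⟩
  rw [Subgroup.orderOf_mk] at hj
  have hzk : orderOf z ∣ p ^ k := by
    have h1 : orderOf z ∣ Nat.card G := orderOf_dvd_natCard z
    rw [hN] at h1
    refine Nat.Coprime.dvd_of_dvd_mul_right ?_ h1
    rw [hj]
    exact Nat.Coprime.pow_left _ ((Nat.Prime.coprime_iff_not_dvd hpr).2 hs)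
  have hxs : orderOf x ∣ s := by
    have h1 : orderOf x ∣ Nat.card G := orderOf_dvd_natCard x
    rw [hN] at h1
    refine Nat.Coprime.dvd_of_dvd_mul_left ?_ h1
    exact (Nat.Coprime.pow_left _ ((Nat.Prime.coprime_iff_not_dvd hpr).2 hx)).symm
  have hpz : p ∣ orderOf z := by
    rw [hj]
    apply dvd_pow_self
    rintro rfl
    rw [pow_zero, orderOf_eq_one_iff] at hj
    exact hz1 hj
  have hzr1 : z ^ r₁ = z := by
    have h4 := (pow_eq_pow_iff_modEq (x := z)).2 (hr1.of_dvd hzk)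
    rw [pow_one] at h4
    exact h4
  have hxr2 : x ^ r₂ = x := by
    have h4 := (pow_eq_pow_iff_modEq (x := x)).2 (hr2.of_dvd hxs)
    rw [pow_one] at h4
    exact h4
  have hxr1 : x ^ r₁ = 1 := orderOf_dvd_iff_pow_eq_one.1 (hxs.trans hsr1)
  have hzr2 : z ^ r₂ = 1 := orderOf_dvd_iff_pow_eq_one.1 (hzk.trans hpr2)
  -- the two parts of `b`
  obtain ⟨y₁, hy₁⟩ : ∃ y, y = b ^ r₁ := ⟨_, rfl⟩
  obtain ⟨y₂, hy₂⟩ : ∃ y, y = b ^ r₂ := ⟨_, rfl⟩
  have e1 : y₁ ^ p ^ a = z := by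
    rw [hy₁, ← pow_mul, mul_comm, pow_mul, hb, hcom.mul_pow, hzr1, hxr1, mul_one]
  have e2 : y₂ ^ p ^ a = x := by
    rw [hy₂, ← pow_mul, mul_comm, pow_mul, hb, hcom.mul_pow, hzr2, hxr2, one_mul]
  have hone : ∀ (t : G) (i : ℕ), t ^ (p ^ k * s * i) = 1 := by
    intro t i
    rw [← hN, pow_mul, pow_card_eq_one', one_pow]
  have htr : ∀ t : G, (t ^ r₁) ^ p ^ k = 1 := by
    intro t
    obtain ⟨i, hi⟩ := hsr1
    rw [← pow_mul, hi]
    have : s * i * p ^ k = p ^ k * s * i := by ring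
    rw [this]
    exact hone t i
  have o1 : y₁ ^ p ^ k = 1 := by rw [hy₁]; exact htr b
  have o2 : y₂ ^ s = 1 := by
    obtain ⟨i, hi⟩ := hpr2
    rw [hy₂, ← pow_mul, hi]
    have : p ^ k * i * s = p ^ k * s * i := by ring
    rw [this]
    exact hone b i
  have ho1 : orderOf y₁ ∣ p ^ k := orderOf_dvd_of_pow_eq_one o1
  have ho2 : orderOf y₂ ∣ s := orderOf_dvd_of_pow_eq_one o2
  have cz1 : Commute y₁ z := by
    rw [← e1]
    exact (Commute.refl y₁).pow_right _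
  have cx1 : Commute y₁ x := by
    rw [← e2, hy₁, hy₂]
    exact (((Commute.refl b).pow_left r₁).pow_right r₂).pow_right _
  -- the group `C`
  obtain ⟨C, hC⟩ : ∃ C : Subgroup G, C = Subgroup.centralizer {x} ⊓ Subgroup.centralizer {z} := ⟨_, rfl⟩
  have hCm : ∀ t, t ∈ C ↔ t * x = x * t ∧ t * z = z * t := by
    intro t
    rw [hC, Subgroup.mem_inf, Subgroup.mem_centralizer_singleton_iff,
      Subgroup.mem_centralizer_singleton_iff]
  have hDC : D ≤ C := by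
    intro d hd
    rw [hCm]
    refine ⟨?_, (hzc d hd).symm⟩
    have := hDx hd
    rw [Subgroup.mem_centralizer_singleton_iff] at this
    exact this
  have hyC : y₁ ∈ C := (hCm _).2 ⟨cx1.eq, cz1.eq⟩
  have hDmax : ∀ R : Subgroup G, IsPGroup p R → R ≤ C → D ≤ R → R = D := by
    intro R hR hRC hDR
    symm
    apply Subgroup.eq_of_le_of_card_ge hDR
    obtain ⟨i, hi⟩ := IsPGroup.iff_card.1 hR
    have h1 : Nat.card R ∣ Nat.card (Subgroup.centralizer ({x} : Set G)) := by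
      apply Subgroup.card_dvd_of_le
      rw [hC] at hRC
      exact hRC.trans inf_le_left
    rw [hi] at h1
    rw [hi, hDc]
    unfold pp
    apply Nat.pow_le_pow_right hpr.pos
    exact (padicValNat_dvd_iff_le (Nat.card_pos).ne').1 h1
  -- elements of `C` acting on `y₁`
  have hact : ∀ t ∈ C, ∀ m : ℕ, t * y₁ * t⁻¹ = y₁ ^ m → Commute (t ^ p ^ k) y₁ := by
    intro t ht m hm
    have h1 : z ^ m = z := by
      have h2 : t * z * t⁻¹ = z := by
        rw [((hCm t).1 ht).2]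
        group
      calc z ^ m = (y₁ ^ m) ^ p ^ a := by rw [← e1, ← pow_mul, ← pow_mul, mul_comm]
        _ = t * z * t⁻¹ := by rw [← hm, conj_pow, e1]
        _ = z := h2
    have h3 : m ≡ 1 [MOD orderOf z] := by
      rw [← pow_eq_pow_iff_modEq, pow_one]
      exact h1
    have h4 : m ≡ 1 [MOD p] := h3.of_dvd hpz
    have h5 : ((p : ℕ) : ℤ) ∣ (m : ℤ) - 1 := by
      have := (Nat.modEq_iff_dvd).1 h4.symm
      simpa using this
    have h6 := dvd_sub_pow_of_dvd_sub h5 k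
    rw [one_pow] at h6
    have h7 : m ^ p ^ k ≡ 1 [MOD p ^ k] := by
      apply Nat.ModEq.symm
      rw [Nat.modEq_iff_dvd]
      push_cast
      exact (pow_dvd_pow _ (Nat.le_succ k)).trans h6
    have h8 := DG5_pow t y₁ m hm (p ^ k)
    have h9 : y₁ ^ (m ^ p ^ k) = y₁ := by
      have := (pow_eq_pow_iff_modEq (x := y₁)).2 (h7.of_dvd ho1)
      rw [pow_one] at this
      exact this
    rw [h9] at h8
    exact mul_inv_eq_iff_eq_mul.1 h8
  have hact' : ∀ t ∈ C, ∀ m : ℕ, t * y₁ * t⁻¹ = y₁ ^ m → t ^ r₁ * y₁ * (t ^ r₁)⁻¹ = y₁ ^ m := by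
    intro t ht m hm
    have h1 := hact t ht m hm
    obtain ⟨i, hi⟩ : ∃ i : ℤ, (r₁ : ℤ) - 1 = p ^ k * i := by
      have := (Nat.modEq_iff_dvd).1 hr1.symm
      push_cast at this
      exact this
    have h2 : t ^ r₁ = t * (t ^ p ^ k) ^ i := by
      rw [← zpow_natCast, ← zpow_natCast, ← zpow_mul, ← zpow_one_add]
      congr 1
      push_cast
      linarith
    have h3 : Commute ((t ^ p ^ k) ^ i) y₁ := h1.zpow_left i
    rw [h2]
    have h4 : t * (t ^ p ^ k) ^ i * y₁ * (t * (t ^ p ^ k) ^ i)⁻¹ =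
        t * ((t ^ p ^ k) ^ i * y₁ * ((t ^ p ^ k) ^ i)⁻¹) * t⁻¹ := by
      rw [mul_inv_rev]
      simp only [mul_assoc]
    rw [h4, h3.eq, mul_inv_cancel_right, hm]
  -- the group `N` and its Sylow subgroup
  obtain ⟨Q, hQN, hQp, hQmax⟩ := DG5_max p (DG5_N C y₁)
  have hNC : DG5_N C y₁ ≤ C := fun t ht => ht.1
  have hyN : y₁ ∈ DG5_N C y₁ := ⟨hyC, ⟨1, by simp⟩, ⟨1, by simp⟩⟩
  have hconjQ : ∀ t ∈ DG5_N C y₁, t ^ p ^ k = 1 → ∃ h ∈ DG5_N C y₁, h * t * h⁻¹ ∈ Q := by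
    intro t ht htp
    obtain ⟨c, hc, hcq⟩ := DG5_conj p (DG5_N C y₁) Q (Subgroup.zpowers t) hQN hQp hQmax
      (by rw [Subgroup.zpowers_le]; exact ht) (DG5_zp p k t htp)
    exact ⟨c, hc, hcq t (Subgroup.mem_zpowers t)⟩
  have hyQ : y₁ ∈ Q := by
    obtain ⟨h, hh, hq⟩ := hconjQ y₁ hyN o1
    obtain ⟨-, -, ⟨v, hv⟩⟩ := hh
    have h1 : y₁ = (h * y₁ * h⁻¹) ^ v := by
      rw [conj_pow, ← hv]
      group
    rw [h1]
    exact Q.pow_mem hq v
  have hQact : ∀ m : ℕ, m ≡ 1 [MOD orderOf z] → ∃ q ∈ Q, q * y₁ * q⁻¹ = y₁ ^ m := by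
    intro m hm
    obtain ⟨m', hm1, hm2⟩ := Nat.chineseRemainder hcop m 1
    have hy1 : y₁ ^ m' = y₁ ^ m := (pow_eq_pow_iff_modEq (x := y₁)).2 (hm1.of_dvd ho1)
    have hy2 : y₂ ^ m' = y₂ := by
      have := (pow_eq_pow_iff_modEq (x := y₂)).2 (hm2.of_dvd ho2)
      rw [pow_one] at this
      exact this
    have hzm : z ^ m = z := by
      have := (pow_eq_pow_iff_modEq (x := z)).2 hm
      rw [pow_one] at this
      exact this
    have hzm' : z ^ m' = z := by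
      have h5 := (pow_eq_pow_iff_modEq (x := z)).2 (hm1.of_dvd hzk)
      rw [hzm] at h5
      exact h5
    have hxm' : x ^ m' = x := by
      have := (pow_eq_pow_iff_modEq (x := x)).2 (hm2.of_dvd hxs)
      rw [pow_one] at this
      exact this
    have hmo : m' ≡ 1 [MOD orderOf (z * x)] := by
      rw [← pow_eq_pow_iff_modEq, pow_one, hcom.mul_pow, hzm', hxm']
    obtain ⟨t, ht⟩ := isConj_iff.1 (hcon m' hmo)
    have ht1 : t * y₁ * t⁻¹ = y₁ ^ m := by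
      rw [← hy1, hy₁, ← conj_pow, ht, ← pow_mul, ← pow_mul, mul_comm]
    have ht2 : t * y₂ * t⁻¹ = y₂ := by
      rw [← hy2]
      rw [hy2, hy₂, ← conj_pow, ht, ← pow_mul, mul_comm, pow_mul, ← hy₂, hy2]
    have htx : t * x * t⁻¹ = x := by
      rw [← e2, ← conj_pow, ht2]
    have htz : t * z * t⁻¹ = z := by
      have : t * z * t⁻¹ = z ^ m := by
        rw [← e1, ← conj_pow, ht1, ← pow_mul, ← pow_mul, mul_comm]
      rw [this, hzm]
    have htC : t ∈ C := (hCm t).2 ⟨mul_inv_eq_iff_eq_mul.1 htx, mul_inv_eq_iff_eq_mul.1 htz⟩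
    have htN : t ∈ DG5_N C y₁ := DG5_mem C y₁ t htC m ht1
    have ht' := hact' t htC m ht1
    obtain ⟨h, hh, hq⟩ := hconjQ (t ^ r₁) (Subgroup.pow_mem _ htN _) (htr t)
    obtain ⟨-, -, ⟨v, hv⟩⟩ := hh
    refine ⟨_, hq, ?_⟩
    have h1 : h * t ^ r₁ * h⁻¹ * y₁ * (h * t ^ r₁ * h⁻¹)⁻¹ =
        h * (t ^ r₁ * (h⁻¹ * y₁ * h) * (t ^ r₁)⁻¹) * h⁻¹ := by
      group
    have h2 : h * y₁ ^ v * h⁻¹ = y₁ := by
      rw [← hv]
      group
    rw [h1, hv, ← conj_pow, ht', ← pow_mul, mul_comm, pow_mul, ← conj_pow, h2]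
  -- conjugate into `D`
  obtain ⟨c, hc, hcQ⟩ := DG5_conj p C D Q hDC hDp hDmax (hQN.trans hNC) hQp
  have hcz : c * z * c⁻¹ = z := by
    rw [((hCm c).1 hc).2]
    group
  obtain ⟨m, hm, hmd⟩ := hyp (c * y₁ * c⁻¹) (hcQ y₁ hyQ) (by rw [conj_pow, e1, hcz])
  obtain ⟨q, hq, hqy⟩ := hQact m hm
  apply hmd (c * q * c⁻¹) (hcQ q hq)
  have h1 : c * q * c⁻¹ * (c * y₁ * c⁻¹) * (c * q * c⁻¹)⁻¹ = c * (q * y₁ * q⁻¹) * c⁻¹ := by
    group
  rw [h1, hqy, ← conj_pow]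

end Pool.Agent.OB
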